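import Pool.Agent.H29.LA.Targets
import Pool.Agent.H13.HP.HJ

/-!
# (PCK) a point in a prescribed class close to `x₀`
-/

set_option autoImplicit false

open Polynomial
open Pool.Agent.H29.LA

namespace Pool.Agent.H49.LA

theorem pf_PCK : T_PCK := by
  classical
  intro M _ _ V _ _ χ D x₀ κ h Γ₀ _ v bd s₀ hD hsp hκ hs₀ hs₁
  set R : Multiset M := D.roots.filter (fun a => a ≠ x₀) with hR
  have hRne : ∀ a ∈ R, x₀ - a ≠ 0 := by
    intro a ha h0
    exact (Multiset.mem_filter.1 ha).2 (sub_eq_zero.1 h0).symm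
  have hlc : D.leadingCoeff ≠ 0 := leadingCoeff_ne_zero.2 hD
  set S : Finset M := insert 0 (insert 1 ((R.map fun a => (x₀ - a)⁻¹).toFinset)) with hS
  set S' : Finset M := S ∪ S.image (fun s => s₀⁻¹ + s) with hS'
  obtain ⟨q', hq'⟩ := Pool.Agent.H13.HP.exists_translate χ S' h
  have hs₀v : v s₀ ≠ 0 := (Valuation.ne_zero_iff v).2 hs₀
  obtain ⟨q, hq, hqv⟩ : ∃ q : M, (∀ s ∈ S, ∃ u : Mˣ, (u : M) = q + s ∧ χ u = χ h) ∧
      v q⁻¹ ≤ v s₀ := by
    by_cases hlt : v q' < v s₀⁻¹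
    · refine ⟨q' + s₀⁻¹, fun s hs => ?_, ?_⟩
      · obtain ⟨u, hu, hχ⟩ := hq' (s₀⁻¹ + s)
          (Finset.mem_union_right _ (Finset.mem_image_of_mem _ hs))
        exact ⟨u, by rw [hu]; ring, hχ⟩
      · rw [map_inv₀, Valuation.map_add_eq_of_lt_right v hlt, map_inv₀, inv_inv]
    · refine ⟨q', fun s hs => hq' s (Finset.mem_union_left _ hs), ?_⟩
      have h1 : v s₀⁻¹ ≤ v q' := not_lt.1 hlt
      rw [map_inv₀] at h1 ⊢
      have h2 : 0 < (v s₀)⁻¹ := by
        rw [zero_lt_iff]; exact inv_ne_zero hs₀v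
      have h3 := inv_anti₀ h2 h1
      rwa [inv_inv] at h3
  obtain ⟨u₀, hu₀, hχ₀⟩ := hq 0 (Finset.mem_insert_self _ _)
  rw [add_zero] at hu₀
  obtain ⟨u₁, hu₁, hχ₁⟩ := hq 1 (Finset.mem_insert_of_mem (Finset.mem_insert_self _ _))
  have hq0 : q ≠ 0 := by rw [← hu₀]; exact u₀.ne_zero
  have hfac : ∀ a ∈ R, ∃ w z : Mˣ, (w : M) = x₀ + q⁻¹ - a ∧ (z : M) = x₀ - a ∧ χ w = χ z := by
    intro a ha
    have ha0 := hRne a ha
    obtain ⟨u, hu, hχ⟩ := hq (x₀ - a)⁻¹ (Finset.mem_insert_of_mem (Finset.mem_insert_of_mem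
      (Multiset.mem_toFinset.2 (Multiset.mem_map_of_mem _ ha))))
    refine ⟨Units.mk0 (x₀ - a) ha0 * u₀⁻¹ * u, Units.mk0 (x₀ - a) ha0, ?_, rfl, ?_⟩
    · rw [Units.val_mul, Units.val_mul, Units.val_inv_eq_inv_val, hu₀, hu, Units.val_mk0]
      field_simp
      ring
    · rw [map_mul, map_mul, map_inv, hχ₀, hχ, inv_mul_cancel_right]
  have hprod : ∀ T : Multiset M, T ≤ R → ∃ w z : Mˣ, (w : M) = (T.map fun a => x₀ + q⁻¹ - a).prod ∧
      (z : M) = (T.map fun a => x₀ - a).prod ∧ χ w = χ z := by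
    intro T
    induction T using Multiset.induction_on with
    | empty => intro _; exact ⟨1, 1, by simp, by simp, rfl⟩
    | cons a T ih =>
      intro hT
      obtain ⟨w, z, hw, hz, hwz⟩ := ih ((Multiset.le_cons_self T a).trans hT)
      obtain ⟨w', z', hw', hz', hχ'⟩ := hfac a (Multiset.mem_of_le hT (Multiset.mem_cons_self a T))
      refine ⟨w' * w, z' * z, ?_, ?_, ?_⟩
      · rw [Multiset.map_cons, Multiset.prod_cons, Units.val_mul, hw, hw']
      · rw [Multiset.map_cons, Multiset.prod_cons, Units.val_mul, hz, hz']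
      · rw [map_mul, map_mul, hχ', hwz]
  obtain ⟨w, z, hw, hz, hwz⟩ := hprod R le_rfl
  set m := D.rootMultiplicity x₀ with hm
  have hrootsplit : D.roots = R + Multiset.replicate m x₀ := by
    rw [hR, hm, ← count_roots, ← Multiset.filter_eq' , add_comm]
    exact (Multiset.filter_add_not (fun a => a = x₀) D.roots).symm
  have heval : D.eval (x₀ + q⁻¹) =
      D.leadingCoeff * ((R.map fun a => x₀ + q⁻¹ - a).prod * q⁻¹ ^ m) := by
    rw [hsp.eval_eq_prod_roots, hrootsplit, Multiset.map_add, Multiset.prod_add,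
      Multiset.map_replicate, Multiset.prod_replicate, add_sub_cancel_left]
  refine ⟨u₀, u₁, Units.mk0 D.leadingCoeff hlc * (w * (u₀⁻¹) ^ m), by rw [hu₁, hu₀], hχ₀, hχ₁, ?_,
    ?_, ?_⟩
  · rw [Units.val_inv_eq_inv_val, hu₀]
    exact hqv.trans_lt hs₁
  · rw [Units.val_inv_eq_inv_val, hu₀, heval, Units.val_mul, Units.val_mul, Units.val_mk0, hw,
      Units.val_pow_eq_pow_val, Units.val_inv_eq_inv_val, hu₀]
  · have h1 : κ = Units.mk0 D.leadingCoeff hlc * z := by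
      apply Units.ext
      rw [hκ, Units.val_mul, Units.val_mk0, hz]
    rw [h1, map_mul, map_mul, map_mul, map_pow, map_inv, hwz, hχ₀, mul_assoc]

end Pool.Agent.H49.LA
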